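import Pool.Agent.LAT.StmtsM

/-!
# Squad LAT, row CHN: chains are short
-/

set_option autoImplicit false

namespace Pool.Agent.LAT.H13

open Matrix Pool.Agent.LAT

theorem rk_le {m : ℕ} (M : Submodule ℤ (Fin m → ℤ)) : rk M ≤ m := by
  unfold rk
  have := Submodule.finrank_le M
  rwa [Module.finrank_fin_fun] at this

theorem rk_mono {m : ℕ} {M M' : Submodule ℤ (Fin m → ℤ)} (h : M ≤ M') : rk M ≤ rk M' :=
  Submodule.finrank_mono h

theorem rk_pos {m : ℕ} {M : Submodule ℤ (Fin m → ℤ)} (h : M ≠ ⊥) : 1 ≤ rk M := by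
  unfold rk
  have : Nontrivial M := (Submodule.nontrivial_iff_ne_bot).2 h
  exact Module.finrank_pos

/-- logarithm of the Gram determinant of an element of `PM L D` -/
theorem log_gd (hPOS : PosStmt) {m : ℕ} {L : Submodule ℤ (Fin m → ℤ)} {D : ℕ}
    {M : Submodule ℤ (Fin m → ℤ)} (hM : PM L D M) :
    1 + Nat.log 2 (gd M).toNat ≤ m * Nat.size D := by
  obtain ⟨h0, -, h2⟩ := hM
  have hr := rk_pos h0
  have hrm := rk_le M
  have h1 := hPOS.2.1 m M
  have hD : D ≠ 0 := by
    rintro rfl
    rw [Nat.cast_zero, zero_pow (by omega)] at h2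
    omega
  have h3 : (gd M).toNat ≤ D ^ rk M := by
    have : ((gd M).toNat : ℤ) ≤ ((D ^ rk M : ℕ) : ℤ) := by
      rw [Int.toNat_of_nonneg (by omega)]
      push_cast
      exact h2
    exact_mod_cast this
  have h4 : D ^ rk M ≤ D ^ m := Nat.pow_le_pow_right (Nat.pos_of_ne_zero hD) hrm
  have h5 : D ^ m < (2 ^ Nat.size D) ^ m := Nat.pow_lt_pow_left (Nat.lt_size_self D) (by omega)
  have h6 : (gd M).toNat < 2 ^ (m * Nat.size D) := by
    rw [mul_comm, pow_mul]
    omega
  have h7 : Nat.log 2 (gd M).toNat < m * Nat.size D := Nat.log_lt_of_lt_pow (by omega) h6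
  omega

theorem log_step {a b k : ℕ} (hb : 1 ≤ b) (hk : 2 ≤ k) (h : a = k ^ 2 * b) :
    1 + Nat.log 2 b ≤ Nat.log 2 a := by
  have h1 : 2 ^ Nat.log 2 b ≤ b := Nat.pow_log_le_self 2 (by omega)
  have h2 : 4 ≤ k ^ 2 := by nlinarith
  have h3 : 2 ^ (1 + Nat.log 2 b) ≤ a := by
    rw [h, pow_add, pow_one]
    exact Nat.mul_le_mul (by omega) h1
  have ha : a ≠ 0 := by
    have := Nat.two_pow_pos (1 + Nat.log 2 b)
    omega
  exact (Nat.le_log_iff_pow_le (by norm_num) ha).2 h3

theorem chn_aux (hIDX : IdxStmt) (hPOS : PosStmt) (m : ℕ) (L : Submodule ℤ (Fin m → ℤ)) (D : ℕ) :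
    ∀ (l : List (Submodule ℤ (Fin m → ℤ))) (M : Submodule ℤ (Fin m → ℤ)),
      (∀ N ∈ M :: l, PM L D N) → (M :: l).Pairwise (· < ·) →
      (M :: l).length + rk M * (1 + m * Nat.size D) ≤
        m * (1 + m * Nat.size D) + 1 + Nat.log 2 (gd M).toNat := by
  intro l
  induction l with
  | nil =>
    intro M hM _
    have h1 : rk M * (1 + m * Nat.size D) ≤ m * (1 + m * Nat.size D) :=
      Nat.mul_le_mul_right _ (rk_le M)
    simp only [List.length_singleton]
    omega
  | cons M' l ih =>
    intro M hM hP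
    have hP' := List.pairwise_cons.1 hP
    have hlt : M < M' := hP'.1 M' List.mem_cons_self
    have h1 := ih M' (fun N hN => hM N (List.mem_cons_of_mem _ hN)) hP'.2
    have hM0 := hM M List.mem_cons_self
    have hM1 := hM M' (List.mem_cons_of_mem _ List.mem_cons_self)
    have hrk := rk_mono hlt.le
    have hg0 := hPOS.2.1 m M
    have hg1 := hPOS.2.1 m M'
    rw [List.length_cons]
    rcases Nat.eq_or_lt_of_le hrk with he | hl
    · obtain ⟨k, -, hk1, hk2, hk3⟩ := hIDX m M M' hlt.le he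
      have hk : 2 ≤ k := by
        by_contra hc
        have : k = 1 := by omega
        exact hlt.ne (hk3 this)
      have h2 : (gd M).toNat = k ^ 2 * (gd M').toNat := by
        have : ((gd M).toNat : ℤ) = ((k ^ 2 * (gd M').toNat : ℕ) : ℤ) := by
          rw [Int.toNat_of_nonneg (by omega)]
          push_cast
          rw [Int.toNat_of_nonneg (by omega), hk2]
        exact_mod_cast this
      have h3 := log_step (by omega) hk h2
      rw [he]
      omega
    · have h2 := log_gd hPOS hM1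
      have h3 : (rk M + 1) * (1 + m * Nat.size D) ≤ rk M' * (1 + m * Nat.size D) :=
        Nat.mul_le_mul_right _ hl
      have h4 : (rk M + 1) * (1 + m * Nat.size D) =
          rk M * (1 + m * Nat.size D) + (1 + m * Nat.size D) := by ring
      omega

theorem chn (hIDX : IdxStmt) (hPOS : PosStmt) : ChnStmt := by
  intro m L D l hl hP
  cases l with
  | nil =>
    exact Nat.zero_le _
  | cons M l =>
    have h1 := chn_aux hIDX hPOS m L D l M hl hP
    have hM := hl M List.mem_cons_self
    have h2 := log_gd hPOS hM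
    have h3 : 1 * (1 + m * Nat.size D) ≤ rk M * (1 + m * Nat.size D) :=
      Nat.mul_le_mul_right _ (rk_pos hM.1)
    omega

end Pool.Agent.LAT.H13
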