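import Pool.Agent.LAT.StmtsM

/-!
# Squad LAT, row HNE: existence of the Hermite normal form
-/

set_option autoImplicit false

namespace Pool.Agent.LAT.H13

open Matrix Pool.Agent.LAT

/-- reduction of a vector by the rows of a Hermite normal form -/
theorem red_ex {m : ℕ} (B : Matrix (Fin m) (Fin m) ℤ) (hB : IsHNF B) (v : Fin m → ℤ) :
    ∀ n : ℕ, n ≤ m → ∃ w ∈ rows B, ∀ j : Fin m, m - n ≤ (j : ℕ) → 0 < B j j →
      0 ≤ (v - w) j ∧ (v - w) j < B j j := by
  intro n
  induction n with
  | zero =>
    intro _
    refine ⟨0, Submodule.zero_mem _, ?_⟩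
    intro j hj
    have := j.isLt
    omega
  | succ n ih =>
    intro hn
    obtain ⟨w, hw, h⟩ := ih (by omega)
    obtain ⟨j0, hj0⟩ : ∃ j0 : Fin m, (j0 : ℕ) = m - (n + 1) := ⟨⟨m - (n + 1), by omega⟩, rfl⟩
    by_cases h0 : 0 < B j0 j0
    · refine ⟨w + ((v - w) j0 / B j0 j0) • B j0, Submodule.add_mem _ hw
        (Submodule.smul_mem _ _ (Submodule.subset_span ⟨j0, rfl⟩)), ?_⟩
      intro j hj hpos
      have e : (v - (w + ((v - w) j0 / B j0 j0) • B j0)) j =
          (v - w) j - ((v - w) j0 / B j0 j0) * B j0 j := by
        simp only [Pi.sub_apply, Pi.add_apply, Pi.smul_apply, smul_eq_mul]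
        ring
      rw [e]
      by_cases hne : j = j0
      · subst hne
        have h1 := Int.emod_add_mul_ediv ((v - w) j) (B j j)
        have h2 := Int.emod_nonneg ((v - w) j) hpos.ne'
        have h3 := Int.emod_lt_of_pos ((v - w) j) hpos
        have h4 : (v - w) j - (v - w) j / B j j * B j j = (v - w) j % B j j := by
          linarith [mul_comm (B j j) ((v - w) j / B j j)]
        rw [h4]
        exact ⟨h2, h3⟩
      · have h1 : (j : ℕ) ≠ j0 := fun h' => hne (Fin.ext h')
        have h2 : j0 < j := by
          rw [Fin.lt_def]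
          omega
        rw [hB.tri j0 j h2, mul_zero, sub_zero]
        exact h j (by omega) hpos
    · refine ⟨w, hw, ?_⟩
      intro j hj hpos
      by_cases hne : j = j0
      · subst hne
        exact (h0 hpos).elim
      · have h1 : (j : ℕ) ≠ j0 := fun h' => hne (Fin.ext h')
        exact h j (by omega) hpos

theorem hne_aux {m : ℕ} (M : Submodule ℤ (Fin m → ℤ)) : ∀ c : ℕ, c ≤ m →
    ∃ B : Matrix (Fin m) (Fin m) ℤ, IsHNF B ∧ (∀ k : Fin m, c ≤ (k : ℕ) → B k = 0) ∧
      ∀ v : Fin m → ℤ, v ∈ rows B ↔ (v ∈ M ∧ ∀ i : Fin m, c ≤ (i : ℕ) → v i = 0) := by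
  intro c
  induction c with
  | zero =>
    intro _
    refine ⟨0, ⟨?_, ?_, ?_, ?_⟩, ?_, ?_⟩
    · intro k i _
      rfl
    · intro k
      exact le_rfl
    · intro k _ i
      rfl
    · intro k j _ h
      exact absurd h (lt_irrefl _)
    · intro k _
      rfl
    · intro v
      constructor
      · intro hv
        have h0 : rows (0 : Matrix (Fin m) (Fin m) ℤ) = ⊥ := by
          unfold rows
          rw [Submodule.span_eq_bot]
          rintro x ⟨i, rfl⟩
          rfl
        rw [h0, Submodule.mem_bot] at hv
        subst hv
        exact ⟨Submodule.zero_mem _, fun i _ => rfl⟩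
      · rintro ⟨-, hv⟩
        have : v = 0 := by
          ext i
          exact hv i (Nat.zero_le _)
        rw [this]
        exact Submodule.zero_mem _
  | succ c ih =>
    intro hc
    obtain ⟨B, hB, hBz, hBm⟩ := ih (by omega)
    obtain ⟨k, hk⟩ : ∃ k : Fin m, (k : ℕ) = c := ⟨⟨c, by omega⟩, rfl⟩
    -- the submodule of M of the vectors vanishing from c + 1 on
    let N : Submodule ℤ (Fin m → ℤ) :=
      { carrier := {v | v ∈ M ∧ ∀ i : Fin m, c + 1 ≤ (i : ℕ) → v i = 0}
        add_mem' := by
          rintro a b ⟨ha, ha'⟩ ⟨hb, hb'⟩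
          refine ⟨Submodule.add_mem _ ha hb, fun i hi => ?_⟩
          rw [Pi.add_apply, ha' i hi, hb' i hi, add_zero]
        zero_mem' := ⟨Submodule.zero_mem _, fun i _ => rfl⟩
        smul_mem' := by
          rintro t a ⟨ha, ha'⟩
          refine ⟨Submodule.smul_mem _ _ ha, fun i hi => ?_⟩
          rw [Pi.smul_apply, ha' i hi, smul_zero] }
    have hN : ∀ v, v ∈ N ↔ (v ∈ M ∧ ∀ i : Fin m, c + 1 ≤ (i : ℕ) → v i = 0) := fun v => Iff.rfl
    have hvan : ∀ v ∈ N, v k = 0 → v ∈ rows B := by
      intro v hv h0
      rw [hBm]
      refine ⟨((hN v).1 hv).1, fun i hi => ?_⟩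
      by_cases h : (i : ℕ) = c
      · have : i = k := Fin.ext (h.trans hk.symm)
        rw [this]
        exact h0
      · exact ((hN v).1 hv).2 i (by omega)
    let I : Ideal ℤ := Submodule.map (LinearMap.proj k : (Fin m → ℤ) →ₗ[ℤ] ℤ) N
    obtain ⟨d0, hd0⟩ : ∃ d0 : ℤ, I = Ideal.span {d0} :=
      ((inferInstance : IsPrincipalIdealRing ℤ).principal I).principal
    by_cases hd : d0 = 0
    · -- nothing new
      refine ⟨B, hB, fun k' hk' => hBz k' (by omega), ?_⟩
      intro v
      constructor
      · intro hv
        have := (hBm v).1 hv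
        exact ⟨this.1, fun i hi => this.2 i (by omega)⟩
      · intro hv
        apply hvan v ((hN v).2 hv)
        have h1 : v k ∈ I := ⟨v, (hN v).2 hv, rfl⟩
        rw [hd0, hd, Ideal.mem_span_singleton] at h1
        exact zero_dvd_iff.1 h1
    · have hd1 : |d0| ∈ I := by
        rw [hd0, Ideal.mem_span_singleton]
        exact (dvd_abs d0 d0).2 dvd_rfl
      obtain ⟨v, hv, hvk⟩ := hd1
      have hvk' : v k = |d0| := hvk
      obtain ⟨w, hw, hred⟩ := red_ex B hB v m le_rfl
      have hw' := (hBm w).1 hw
      have hdpos : 0 < |d0| := abs_pos.2 hd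
      obtain ⟨u, hu⟩ : ∃ u : Fin m → ℤ, u = v - w := ⟨_, rfl⟩
      have huk : u k = |d0| := by
        rw [hu, Pi.sub_apply, hvk', hw'.2 k hk.ge, sub_zero]
      have huN : u ∈ N := by
        rw [hu]
        refine Submodule.sub_mem _ hv ((hN w).2 ⟨hw'.1, fun i hi => hw'.2 i (by omega)⟩)
      have hBk : B k = 0 := hBz k hk.ge
      obtain ⟨B', hB'⟩ : ∃ B' : Matrix (Fin m) (Fin m) ℤ, B' = Function.update B k u := ⟨_, rfl⟩
      have hBu : B' k = u := by
        rw [hB']
        exact Function.update_self _ _ _
      have hBo : ∀ j, j ≠ k → B' j = B j := by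
        intro j hj
        rw [hB']
        exact Function.update_of_ne hj _ _
      have hBle : rows B ≤ rows B' := by
        unfold rows
        rw [Submodule.span_le]
        rintro x ⟨i, rfl⟩
        by_cases hi : i = k
        · subst hi
          have : B i = 0 := hBk
          simp only [this]
          exact Submodule.zero_mem _
        · have h1 : B' i = B i := hBo i hi
          simp only [← h1]
          exact Submodule.subset_span ⟨i, rfl⟩
      refine ⟨B', ⟨?_, ?_, ?_, ?_⟩, ?_, ?_⟩
      · intro k' i hi
        by_cases h : k' = k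
        · subst h
          have h1 : B' k' i = u i := congrFun hBu i
          rw [h1]
          refine ((hN u).1 huN).2 i ?_
          have := Fin.lt_def.1 hi
          omega
        · have h1 : B' k' i = B k' i := congrFun (hBo k' h) i
          rw [h1]
          exact hB.tri k' i hi
      · intro k'
        by_cases h : k' = k
        · subst h
          have h1 : B' k' k' = u k' := congrFun hBu k'
          rw [h1, huk]
          exact hdpos.le
        · have h1 : B' k' k' = B k' k' := congrFun (hBo k' h) k'
          rw [h1]
          exact hB.nonneg k'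
      · intro k' h0 i
        by_cases h : k' = k
        · subst h
          have h1 : B' k' k' = u k' := congrFun hBu k'
          rw [h1, huk] at h0
          exact absurd h0 hdpos.ne'
        · have h1 : B' k' k' = B k' k' := congrFun (hBo k' h) k'
          have h2 : B' k' i = B k' i := congrFun (hBo k' h) i
          rw [h1] at h0
          rw [h2]
          exact hB.zero k' h0 i
      · intro k' j hj hpos
        by_cases h : k' = k
        · subst h
          have hjk : j ≠ k' := ne_of_lt hj
          have h1 : B' k' j = u j := congrFun hBu j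
          have h2 : B' j j = B j j := congrFun (hBo j hjk) j
          rw [h2] at hpos ⊢
          rw [h1, hu]
          exact hred j (by omega) hpos
        · have h1 : B' k' j = B k' j := congrFun (hBo k' h) j
          by_cases h' : j = k
          · subst h'
            have h3 : (j : ℕ) < k' := Fin.lt_def.1 hj
            have h2 : B k' = 0 := hBz k' (by omega)
            have h4 : B k' j = 0 := congrFun h2 j
            rw [h1, h4]
            exact ⟨le_rfl, hpos⟩
          · have h2 : B' j j = B j j := congrFun (hBo j h') j
            rw [h2] at hpos ⊢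
            rw [h1]
            exact hB.red k' j hj hpos
      · intro k' hk'
        have h : k' ≠ k := by
          intro h
          rw [h, hk] at hk'
          omega
        rw [hBo k' h]
        exact hBz k' (by omega)
      · intro x
        rw [← hN x]
        constructor
        · intro hx
          have h1 : rows B' ≤ N := by
            unfold rows
            rw [Submodule.span_le]
            rintro y ⟨i, rfl⟩
            by_cases hi : i = k
            · subst hi
              simp only [hBu]
              exact huN
            · simp only [hBo i hi]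
              have h2 : B i ∈ rows B := Submodule.subset_span ⟨i, rfl⟩
              have h3 := (hBm _).1 h2
              exact (hN _).2 ⟨h3.1, fun i' hi' => h3.2 i' (by omega)⟩
          exact h1 hx
        · intro hx
          have h1 : x k ∈ I := ⟨x, hx, rfl⟩
          rw [hd0, Ideal.mem_span_singleton] at h1
          obtain ⟨a, ha⟩ := (abs_dvd d0 (x k)).2 h1
          have h2 : x - a • u ∈ rows B := by
            refine hvan _ (Submodule.sub_mem _ hx (Submodule.smul_mem _ _ huN)) ?_
            rw [Pi.sub_apply, Pi.smul_apply, huk, smul_eq_mul, ha]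
            ring
          have h3 : u ∈ rows B' := by
            rw [← hBu]
            exact Submodule.subset_span ⟨k, rfl⟩
          have h4 : x = (x - a • u) + a • u := by abel
          rw [h4]
          exact Submodule.add_mem _ (hBle h2) (Submodule.smul_mem _ _ h3)

theorem hne : HneStmt := by
  intro m M
  obtain ⟨B, hB, -, hBm⟩ := hne_aux M m le_rfl
  refine ⟨B, hB, ?_⟩
  ext v
  rw [hBm]
  constructor
  · exact fun h => h.1
  · intro h
    refine ⟨h, fun i hi => ?_⟩
    have := i.isLt
    omega

end Pool.Agent.LAT.H13
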